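import Pool.Agent.Helper77.OF4.Base

/-!
# MP_7a9ddc_co, project SO (separated odd faces): definitions

Plane maps `M : PMap V D` of project PM (multigraphs). `M.r` is the rotation, `M.φ d = M.r (M.ι d)` the
face permutation, `M.t d` the vertex at which the dart `d` starts, `M.t (M.φ d) = M.t (M.ι d)`
(`Pool.Agent.Helper77.OF4.t_φ`). The type `D` of darts is always finite.
-/

set_option autoImplicit false

namespace Pool.Agent.Helper77.SO

open Equiv Equiv.Perm Pool.Agent.Helper35.PM Pool.Agent.Helper77.HY Pool.Agent.Helper77.OF4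

variable {V D U : Type}

/-- the dart `d` belongs to a face of odd length -/
def OddD (M : PMap V D) (d : D) : Prop := Odd (Function.minimalPeriod M.φ d)

/-- `p` is constant on the faces -/
def FC (M : PMap V D) (p : D → ZMod 2) : Prop := ∀ d, p (M.φ d) = p d

/-- the number of the darts with different values of `p` on the two sides (twice the number of edges) -/
noncomputable def cut (M : PMap V D) (p : D → ZMod 2) : ℕ := {d | p (M.ι d) ≠ p d}.ncard

/-- `p` separates two odd faces -/
def Sep (M : PMap V D) (p : D → ZMod 2) : Prop := ∃ a b, OddD M a ∧ OddD M b ∧ p a ≠ p b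

/-- sets of edges which separate two odd faces have at least `L` edges -/
def HC (M : PMap V D) (L : ℕ) : Prop := ∀ p, FC M p → Sep M p → 2 * L ≤ cut M p

/-- the corner between `d` and `φ d` is blocked: folding it would create too small a separating set -/
def Dg (M : PMap V D) (L : ℕ) (d : D) : Prop :=
  ∃ p, FC M p ∧ Sep M p ∧ p (M.ι d) ≠ p d ∧ p (M.ι (M.φ d)) ≠ p d ∧ cut M p ≤ 2 * L + 2

/-- the simple graph on `U` given by the darts both of whose ends are outside `Z` (`τ d` is the vertex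
at which `d` starts) -/
def FG (ι : D → D) (τ : D → U) (Z : Set U) : SimpleGraph U where
  Adj x y := x ≠ y ∧ x ∉ Z ∧ y ∉ Z ∧
    ((∃ d, τ d = x ∧ τ (ι d) = y) ∨ ∃ d, τ d = y ∧ τ (ι d) = x)
  symm := ⟨by
    rintro x y ⟨h1, h2, h3, h4⟩
    exact ⟨h1.symm, h3, h2, h4.symm⟩⟩
  loopless := ⟨fun x h => h.1 rfl⟩

/-- Condition on the cyclic order of the darts at the merged vertex: if `a_i = r' ^ (k i) a`
(`i < m`) are darts at the merged vertex in cyclic order and `v i` is the other end of `a_i`, and all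
`v i` are in one component of the forest, then twice the number of the `i` with `v i ≠ v (i + 1)` is at
most the sum of the distances of `v i` and `v (i + 1)` plus four. -/
def ST (r' : Perm D) (ι : D → D) (τ : D → U) (Z : Set U) : Prop :=
  ∀ (m : ℕ) (k : ℕ → ℕ) (a : D), τ a ∈ Z → k 0 = 0 → (∀ i < m, k i < k (i + 1)) →
    k m = Function.minimalPeriod r' a →
    (∀ i < m, (FG ι τ Z).Reachable (τ (ι a)) (τ (ι ((r' ^ k i) a)))) →
    2 * {i | i < m ∧ τ (ι ((r' ^ k i) a)) ≠ τ (ι ((r' ^ k (i + 1)) a))}.ncard ≤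
      (∑ i ∈ Finset.range m,
        (FG ι τ Z).dist (τ (ι ((r' ^ k i) a))) (τ (ι ((r' ^ k (i + 1)) a)))) + 4

/-- `W` can be merged into one vertex in the plane (rotation `r'`); the rest maps to a forest, and the
cyclic order at the merged vertex satisfies `ST`. -/
def Q (M : PMap V D) (W : Set V) : Prop :=
  ∃ (r' : Perm D) (U : Type) (τ : D → U) (Z : Set U),
    Pl r' M.ι ∧ (∀ d, M.t d ∉ W → r' d = M.r d) ∧
    (∀ d d', M.t d ∈ W → M.t d' ∈ W → r'.SameCycle d d') ∧
    (∀ d d', M.t d = M.t d' → τ d = τ d') ∧ (∀ d, τ d ∈ Z ↔ M.t d ∈ W) ∧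
    (∀ d, τ (M.ι d) ≠ τ d) ∧ (FG M.ι τ Z).IsAcyclic ∧ ST r' M.ι τ Z

/-- `a`, `b`, `c`, `e` are four elements in this cyclic order of one cycle of `π` -/
def Alt (π : Perm D) (a b c e : D) : Prop :=
  ∃ i j k : ℕ, 0 < i ∧ i < j ∧ j < k ∧ k < Function.minimalPeriod π a ∧
    (π ^ i) a = b ∧ (π ^ j) a = c ∧ (π ^ k) a = e

/-- around a vertex outside `W` the darts to `W` are contiguous -/
def AF (M : PMap V D) (W : Set V) : Prop :=
  ∀ a b c e, M.t a ∉ W → Alt M.r a b c e → M.t (M.ι a) ∈ W → M.t (M.ι b) ∉ W →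
    M.t (M.ι c) ∈ W → M.t (M.ι e) ∈ W

/-- the same property at the merged vertex: for every vertex `v` of the forest, the darts to `v` are
contiguous among the darts to the component of `v` -/
def AFs (r' : Perm D) (ι : D → D) (τ : D → U) (Z : Set U) : Prop :=
  ∀ a b c e, τ a ∈ Z → Alt r' a b c e → τ (ι c) = τ (ι a) → τ (ι b) ≠ τ (ι a) →
    (FG ι τ Z).Reachable (τ (ι a)) (τ (ι b)) → (FG ι τ Z).Reachable (τ (ι a)) (τ (ι e)) →
    τ (ι e) = τ (ι a)

end Pool.Agent.Helper77.SO
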