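import Pool.Agent.Helper77.SO.St3
import Pool.Agent.Helper77.OF4.Main
import Pool.Agent.Helper35.PM.All
import Pool.Agent.Helper64.OF.M_PP
import Pool.Agent.Helper29.SO.PAR
import Pool.Agent.Helper42.SO.SUB2
import Pool.Agent.Helper79.SO.M_CN0
import Pool.Agent.Helper82.SO.UN
import Pool.Agent.Helper82.SO.CS
import Pool.Agent.Helper9.SO.OGM
import Pool.Agent.Helper15.SO.FH
import Pool.Agent.Helper78.SO.IM
import Pool.Agent.Helper14.SO.XF
import Pool.Agent.Helper8.SO.L2
import Pool.Agent.Helper2.SO.IND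
import Pool.Agent.Helper2.SO.HR
import Pool.Agent.Helper6.SO.FA
import Pool.Agent.Helper69.SO.CC
import Pool.Agent.Helper76.SO.IQC
import Pool.Agent.Helper60.SO.IQ
import Pool.Agent.Helper30.SO.FI2
import Pool.Agent.Helper67.SO.FR
import Pool.Agent.Helper40.SO.VO
import Pool.Agent.Helper78.SO.MG
import Pool.Agent.Helper51.SO.AS
import Pool.Agent.Helper39.SO.TR
import Pool.Agent.Helper21.SO.STM
import Pool.Agent.Helper72.SO.QF
import Pool.Agent.Helper42.SO.GI
import Pool.Agent.Helper69.SO.EB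
import Pool.Agent.Helper80.SO.BU
import Pool.Agent.Helper81.SO.AR
import Pool.Agent.Helper17.SO.AFM
import Pool.Agent.Helper89.SO.NV
import Pool.Agent.Helper18.SO.ACC
import Pool.Agent.Helper52.SO.ADD
import Pool.Agent.Helper53.SO.R12
import Pool.Agent.Helper97.SO.R3
import Pool.Agent.Helper12.SO.DIS
import Pool.Agent.Helper26.SO.EXW
import Pool.Agent.Helper24.SO.F10
import Pool.Agent.Helper36.SO.CYC

/-!
# MP_7a9ddc_co, project SO: assembly
-/

set_option autoImplicit false

namespace Pool.Agent.Helper77.SO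

open Pool.Agent.Helper77.HY Pool.Agent.Helper77.OF4

theorem stPar : StPar := Pool.Agent.Helper29.SO.PAR.main
theorem stSub2 : StSub2 := Pool.Agent.Helper42.SO.SUB2.main
theorem stCn0 : StCn0 := Pool.Agent.Helper79.SO.CN0.main
theorem stUn : StUn := Pool.Agent.Helper82.SO.UN.main stPar stSub2
theorem stCs : StCs := Pool.Agent.Helper82.SO.CS.main stUn
theorem stOg : StOg := Pool.Agent.Helper9.SO.OGM.main stPar
theorem stFh : StFh := Pool.Agent.Helper15.SO.FH.main stP2 stFo
theorem stIm : StIm := Pool.Agent.Helper78.SO.IM.main stPar stSub2 stCn0 Pool.Agent.Helper35.PM.stCutV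
theorem stXf : StXf := Pool.Agent.Helper14.SO.XF.main stPar stCs stIm
theorem stL2 : StL2 := Pool.Agent.Helper8.SO.L2.main
theorem stInd : StInd := Pool.Agent.Helper2.SO.IND.main stOg stXf stFh stL2 stFc stP2
theorem stHr : StHr := Pool.Agent.Helper2.SO.HR.main
theorem stFa : StFa := Pool.Agent.Helper6.SO.FA.main Pool.Agent.Helper35.PM.stCutV
theorem stCc : StCc := Pool.Agent.Helper69.SO.CC.main
theorem stIqc : StIqc := Pool.Agent.Helper76.SO.IQC.main stHr stFa stCc Pool.Agent.Helper35.PM.stEul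
theorem stIq : StIq := Pool.Agent.Helper60.SO.IQ.main stIqc stEub stSub stCnt
theorem stFi2 : StFi2 := Pool.Agent.Helper30.SO.FI2.main stInd stIq stCo stFi
theorem stFr : StFr := Pool.Agent.Helper67.SO.FR.main stCn0
theorem stVo : StVo := Pool.Agent.Helper40.SO.VO.main
theorem stMg : StMg := Pool.Agent.Helper78.SO.MG.main
theorem stAs : StAs := Pool.Agent.Helper51.SO.AS.main Pool.Agent.Helper64.OF.hPP
theorem stTr : StTr := Pool.Agent.Helper39.SO.TR.main
theorem stStm : StStm := Pool.Agent.Helper21.SO.STM.main stTr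
theorem stQf : StQf := Pool.Agent.Helper72.SO.QF.main stFr stVo stMg stAs stStm
theorem stGi : StGi := Pool.Agent.Helper42.SO.GI.main Pool.Agent.Helper35.PM.stJor
theorem stEb : StEb := Pool.Agent.Helper69.SO.EB.main Pool.Agent.Helper35.PM.stEul stSub stCnt
theorem stBu : StBu := Pool.Agent.Helper80.SO.BU.main
theorem stAr : StAr := Pool.Agent.Helper81.SO.AR.main
theorem stAfm : StAfm := Pool.Agent.Helper17.SO.AFM.main stAr
theorem stNv : StNv := Pool.Agent.Helper89.SO.NV.main
theorem stAcc : StAcc := Pool.Agent.Helper18.SO.ACC.main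
theorem stAdd : StAdd := Pool.Agent.Helper52.SO.ADD.main
theorem stR12 : StR12 := Pool.Agent.Helper53.SO.R12.main stNv stAcc stAdd
theorem stR3 : StR3 := Pool.Agent.Helper97.SO.R3.main stNv stAcc stAdd
theorem stDis : StDis := Pool.Agent.Helper12.SO.DIS.main
theorem stExw : StExw := Pool.Agent.Helper26.SO.EXW.main stR12 stR3 stDis
theorem stF10 : StF10 := Pool.Agent.Helper24.SO.F10.main stOg stGi stEb stBu stAfm stExw stQf
theorem stCyc : StCyc := Pool.Agent.Helper36.SO.CYC.main stCn0

end Pool.Agent.Helper77.SO
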