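import Pool.Agent.Helper77.SO.Base
import Pool.Agent.Helper77.OF4.St

/-!
# MP_7a9ddc_co, project SO (separated odd faces): statements of the modules

THEOREM (SO). Let `G` be a connected triangle-free plane graph such that every cycle which separates
two odd faces has length at least `10`. Then `G` is `{1,2}`-choosable. (There may be arbitrarily many
odd faces, and arbitrary faces of length four.)

PROOF. (PART 1) The property is expressed by functions `p` which are constant on the faces (`FC`):
`HC M L`. A face of length different from `2` and `L + 1` has a corner which can be folded such that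
`HC` is preserved (splitting off in the dual graph: PAR, SUB, CN0, UN, CS, OGM, FH, IM, XF). So it
suffices to find the set `W` for maps all of whose faces have length `2` or `L + 1` (L2, IND).
(PART 2) The colouring: `W` gets the colours of `A`, the rest is bipartite, and every set `S` of vertices
outside `W` satisfies `e(S) + |S ∩ N(W)| ≤ 2 |S|` (HR, FA, CC, IQC, IQ), so StCo of OF4 applies.
(PART 3) The final maps: a set `W` such that the rest is a forest and `AF` holds is found by
discharging (St3.lean), it can be merged in the plane (FR, VO, MG), and `AF` implies `ST` (AS, TR, STM).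

All modules are independent: earlier statements may be used as hypotheses. All the statements of
project PM may be used as hypotheses or cited from `Pool.Agent.Helper35.PM.All` (stSep, stCutV, stEul,
stJor, ...), those of HY and OF4 from `Pool.Agent.Helper77.OF4.Main` (stFo, stFc, stP2, stC1, stCo, stEub,
stCnt, stSub, stFi ...), `Pool.Agent.Helper64.OF.hPP` (potential along a permutation iff the sums over the
cycles vanish), `Pool.Agent.Helper35.PM.M_POT.main`.
-/

set_option autoImplicit false

namespace Pool.Agent.Helper77.SO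

open Equiv Equiv.Perm Pool.Agent.Helper35.PM Pool.Agent.Helper77.HY Pool.Agent.Helper77.OF4

/-! ## Part 1: folding -/

/-! ### Module PAR (parity; 60-100 lines)

PROOF. `{d | p (ι d) ≠ p d}` is invariant under the involution `ι` without fixed points, so it has
`2 k` elements. `|{d | p d = 1}|` is the number of pairs `{d, ι d}` with exactly one value `1` (there are
`k` of them) plus twice the number of pairs with two values `1`; so it is congruent to `k`. If it is
odd: the set `{d | p d = 1}` is a union of cycles of `φ`, so one of these cycles has odd length (`OddD`,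
the minimal period is the number of elements of the cycle); the number of all darts is even, so
`{d | p d = 0}` also has an odd number of elements and contains an odd cycle. -/
def StPar : Prop :=
  ∀ (V D : Type) [Finite D] (M : PMap V D) (p : D → ZMod 2), FC M p →
    ∃ k, cut M p = 2 * k ∧ (Odd k ↔ Odd {d | p d = 1}.ncard) ∧ (Odd k → Sep M p)

/-! ### Module SUB2 (submodularity; 40-80 lines)

PROOF. For a dart `e` consider the four values `p e, q e, p (ι e), q (ι e)`; sum the inequalities for the
indicator functions over all darts (`cut` as a sum of indicators). The first inequality holds for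
every dart. For the second one use that the number of the `e` with values `1, 1, 0, 0` is equal to the
number of the `e` with values `0, 0, 1, 1` (apply `ι`), so `4 * ncard = 2 * (both)`, and check all 16
cases. -/
def StSub2 : Prop :=
  ∀ (V D : Type) [Finite D] (M : PMap V D) (p q : D → ZMod 2),
    cut M (fun e => p e * q e) + cut M (fun e => p e + q e + p e * q e) ≤ cut M p + cut M q ∧
    cut M (fun e => p e + p e * q e) + cut M (fun e => q e + p e * q e) +
      4 * {e | p e = 1 ∧ q e = 1 ∧ p (M.ι e) = 0 ∧ q (M.ι e) = 0}.ncard ≤ cut M p + cut M q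

/-- Module CN0 (20-40 lines). PROOF. `p (ι e) = p e` and `p (r e) = p (φ (ι e)) = p (ι e) = p e` for all `e`;
so `p` is constant on the darts at a vertex and along edges; `Conn`. -/
def StCn0 : Prop :=
  ∀ (V D : Type) [Finite D] (M : PMap V D) (p : D → ZMod 2), Conn M → FC M p → cut M p = 0 →
    ∀ a b, p a = p b

/-! ### Module UN (union of two blocking sets; 100-150 lines)

PROOF. From `StPar`, `StSub2`. Write `X = {p = 1}`, `Y = {q = 1}`. `FC` is clear. `cut = 2 k` with
`k ≥ L` if the function separates (`HC`).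
CASE 1: no odd dart has `p = 1`, `q = 0`. Then `p q` separates: an odd `a` with `p a = 1` has `q a = 1`, an
odd `b` with `p b = 0`. `p + p q` does not separate (value `1` at no odd dart), so by `StPar` the number
of darts with value `1` is even, hence `|{p q = 1}|` and `|{p = 1}|` have the same parity. Let
`cut (p q) = 2 k'`, `cut p = 2 k`: `k' ≥ L`, `k ≤ L + 1`, `k' ≡ k (mod 2)`, so `k' ≥ k`. By the first part of
`StSub2` `cut (p + q + p q) ≤ cut q`. `Sep`: an odd `a` with `p a = 1`; an odd `b` with `q b = 0` has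
`p b = 0`.
CASE 2: no odd dart has `q = 1`, `p = 0`: symmetric.
CASE 3: otherwise `p + p q` and `q + p q` both separate, so their cuts are at least `2 L`; the dart `ι e`
shows that the `ncard` in `StSub2` is at least `1`; since `cut p + cut q ≤ 4 L + 4`, we have equality
everywhere: `cut p = cut q = 2 L + 2`, both other cuts are `2 L`. `L` is even: `|{p = 1}|` is odd,
`|{p + p q = 1}|` and `|{q + p q = 1}|` are even, so `|{p q = 1}|` is odd and
`|{p + q + p q = 1}| = |{p = 1}| + |{q + p q = 1}|` is odd. So `p q` separates and `cut (p q) = 2 k'` with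
`k'` odd, `k' ≥ L`, so `k' ≥ L + 1`; `p + q + p q` separates and its cut is at most
`4 L + 4 - 2 (L + 1) = 2 L + 2`. -/
def StUn : Prop :=
  ∀ (V D : Type) [Finite D] (M : PMap V D) (L : ℕ) (p q : D → ZMod 2) (e : D), Even L → HC M L →
    FC M p → FC M q → Sep M p → Sep M q → cut M p ≤ 2 * L + 2 → cut M q ≤ 2 * L + 2 →
    p e = 0 → q e = 0 → p (M.ι e) = 1 → q (M.ι e) = 1 →
    FC M (fun a => p a + q a + p a * q a) ∧ Sep M (fun a => p a + q a + p a * q a) ∧
      cut M (fun a => p a + q a + p a * q a) ≤ 2 * L + 2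

/-! ### Module CS (not all corners of a face are blocked; 100-160 lines)

PROOF. From `StUn`. Let `n = minimalPeriod φ d`, `d i = φ^i d`. Suppose that all corners are blocked.
CLAIM: for `2 ≤ j ≤ n` and all `i` there is a `p` with `FC`, `Sep`, `cut p ≤ 2 L + 2`, `p = 0` on the face of
`d` and `p (ι (d (i + s))) = 1` for all `s < j`. For `j = 2` this is `Dg` at `d i` (replace `p` by `p + 1` if
necessary). From `j` to `j + 1` (`j + 1 ≤ n`): take `p` for `i` and `q` for `i + 1`; `StUn` with
`e = d (i + 1)` (here `2 ≤ j` is used) gives the function `p + q + p q`, which is `1` where `p` or `q` is `1` and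
`0` where both are `0`. For `j = n`, `i = 0`: `p` is `0` on the `n` darts of the face of `d` and `1` at their
opposites. So `cut p ≥ 2 n`; this is a contradiction if `n ≥ L + 2`. If `n` is even let `s = p + 1` on the
face of `d` and `s = p` otherwise: `FC`; `Sep` (the darts of the face of `d` are not odd);
`cut s = cut p - 2 n ≤ 2 L + 2 - 2 n < 2 L`, contradiction to `HC`. -/
def StCs : Prop :=
  ∀ (V D : Type) [Finite D] (M : PMap V D) (L : ℕ) (d : D), Even L → HC M L →
    2 ≤ Function.minimalPeriod M.φ d →
    (Even (Function.minimalPeriod M.φ d) ∨ L + 2 ≤ Function.minimalPeriod M.φ d) →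
    ∃ i : ℕ, ¬ Dg M L ((M.φ ^ i) d)

/-! ### Module OGM (no loops, no triangles; 80-120 lines)

PROOF. From `StPar`. Suppose there is a closed walk of darts `e_0, ..., e_(n-1)`, `n = 1` or `n = 3`
(no loops in the second case; then the three edges are different: `e_1 = ι e_0` would give that `e_2` is
a loop, etc.). Let `x e = ∑ ([e = e_i] + [e = ι e_i])`; `x (ι e) = x e` and the sum of `x` over the darts
at every vertex is `0` (every vertex of the walk is entered as often as left). `M_POT.main` gives `u` with
`u (r e) = u e + x e`, and `M.pl` gives `y` with `y (r e) = y e + x e`, `y (ι e) = y e + x e`; so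
`y (φ e) = y (r (ι e)) = y (ι e) + x (ι e) = y e`, i.e. `FC`. `cut y = |{x = 1}| = 2 n`, so `k = n` is odd in
`StPar`, `y` separates, and `HC` gives `2 L ≤ 2 n ≤ 6`, contradiction. -/
def StOg : Prop :=
  ∀ (V D : Type) [Finite D] (M : PMap V D) (L : ℕ), 4 ≤ L → HC M L → OG M

/-! ### Module FH (folding a corner which is not blocked; 100-160 lines)

PROOF. From `StP2` or `StFo` of OF4. `ψ = (fold M d h).φ = M.φ * swap (M.φ.symm d) (M.φ d)` (see StFo):
`ψ d = φ d`, `ψ (φ d) = d`, `ψ (φ⁻¹ d) = φ (φ d)`. The darts `d, φ d, ι d, ι (φ d)` are different (`φ d ≠ d` since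
there are no loops; `ι d = φ d` would give `t (φ (φ d)) = t (ι (φ d)) = t d`). Suppose `p'` is constant on
the faces of the folded map, separates two odd faces of it and `cut p' < 2 L`. Let `δ = p' d = p' (φ d)`
and `ε = p' (φ (φ d)) = p' (φ⁻¹ d)`, and let `p` be `p'` except that `p d = p (φ d) = ε`. Then `FC M p`; odd
darts of the folded map are odd darts of `M` different from `d`, `φ d` (`StFo`), so `Sep M p`. Hence
`cut M p ≥ 2 L > cut p'`. So `δ ≠ ε` (otherwise `p = p'`), and the two sets of darts differ only at the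
pairs `{d, ι d}`, `{φ d, ι (φ d)}`: the first pair belongs to the cut of `p` iff `p' (ι d) ≠ ε`, and to
the cut of `p'` iff `p' (ι d) ≠ δ`, i.e. iff `p' (ι d) = ε`; the same for `φ d`. So
`cut p = cut p' - 4 + 4 s`, where `s` is the number of pairs with `p' (ι ..) ≠ ε`; hence `s = 2`,
`cut p = cut p' + 4 ≤ 2 L + 2` (`cut p'` is even and less than `2 L`), and `p` shows `Dg M L d`. -/
def StFh : Prop :=
  ∀ (V D : Type) [Finite D] [DecidableEq V] [DecidableEq D] (M : PMap V D) (d : D)
    (h : M.t d ≠ M.t (M.φ (M.φ d))) (L : ℕ), OG M → HC M L → ¬ Dg M L d → HC (fold M d h) L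

/-! ### Module IM (corners with equal ends; 120-180 lines)

PROOF. From `StPar`, `StSub2`, `StCn0`, `StCutV`. Let `u = t d`, `z = t (φ d)`, `z ≠ u` (no loops).
(1) Suppose `t (φ (φ (φ d))) = z`. `StCutV` for `d`, `φ (φ d)` (different, same face, same vertex `u`) gives
`c` with `c (ι e) = c e`, `c (r e) = c e` if `t e ≠ u`, `c d ≠ c (φ (φ d))`. But `ι d`, `ι (φ (φ d))` both start
at `z ≠ u` (`t (ι e) = t (φ e)`), so `c d = c (ι d) = c (ι (φ (φ d))) = c (φ (φ d))`, contradiction.
(2) Let `q` show `Dg M L (φ d)`; we may assume `q = 0` on the face of `d` (add `1`), so `q (ι (φ d)) = 1` and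
`q (ι (φ (φ d))) = 1`. If `φ d = ι d` then `ι (φ d) = d` and `q d = 1`, contradiction. So `ι d ≠ φ d`, and the
four darts `d, ι d, φ d, ι (φ d)` are different. Let `x` be the indicator of these four darts; its sum over
the darts at `u` is `[d] + [ι (φ d)] = 0`, at `z` it is `[ι d] + [φ d] = 0`. As in OGM there is a `w` with `FC`,
`w (ι e) = w e + x e`; we may assume `w = 0` on the face of `d`; so `w (ι d) = w (ι (φ d)) = 1`, `cut w = 4`,
and `w` does not separate (`4 < 2 L`): either no odd dart has `w = 1` or no odd dart has `w = 0`.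
(2a) No odd dart has `w = 1`. Let `s = q + w + q w`: `s = 0` at `d`, `s (ι d) = s (ι (φ d)) = 1`, `FC`, and `Sep`
(for odd darts `s = q`). `cut s ≤ cut q + 4 - cut (q w)` (`StSub2`). The function `q w` is `1` at `ι (φ d)`
and `0` at `d`, so `cut (q w) ≠ 0` (`StCn0`), and it is `0` at all odd darts, so `cut (q w) = 2 k`, `k` even
(`StPar`), so `cut (q w) ≥ 4`. Hence `cut s ≤ 2 L + 2` and `s` shows `Dg M L d`.
(2b) All odd darts have `w = 1`. `w + q w` separates (the value is `1 + q` at odd darts): cut `≥ 2 L`.
`q + q w` is `0` at all odd darts and at `d`, and `1` at `ι (φ (φ d))`: indeed `φ (φ d)` is none of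
`d, φ d, ι d, ι (φ d)` (`φ (φ d) = ι d` would give `t = z`; `φ (φ d) = ι (φ d)` would give
`q (ι (φ (φ d))) = q (φ d) = 0`), so `w (ι (φ (φ d))) = w (φ (φ d)) = 0`. So the cut of `q + q w` is `≥ 4` as
before. The set in the second part of `StSub2` contains `ι (φ d)`. So
`4 + 2 L + 4 ≤ cut q + cut w ≤ 2 L + 6`, contradiction. -/
def StIm : Prop :=
  ∀ (V D : Type) [Finite D] (M : PMap V D) (L : ℕ) (d : D), 4 ≤ L → HC M L → Conn M → OG M →
    M.t (M.φ (M.φ d)) = M.t d → M.φ (M.φ d) ≠ d →
    M.t (M.φ d) ≠ M.t (M.φ (M.φ (M.φ d))) ∧ (Dg M L (M.φ d) → Dg M L d)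

/-! ### Module XF (there is a good corner; 60-100 lines)

PROOF. From `StPar`, `StCs`, `StIm`. Let `n = minimalPeriod φ d0`, `n ≠ 0`, `n ≠ 1` (no loops). If `n` is
odd let `p` be the indicator of the face of `d0`: `|{p = 1}| = n` is odd, so `p` separates (`StPar`) and
`2 L ≤ cut p ≤ 2 n`; `L` is even, so `n ≥ L + 1`, hence `n ≥ L + 2`. If `n` is even then `n ≥ 4`. `StCs` gives
`i` such that `d = φ^i d0` is not blocked; its period is `n ≥ 3`, so `φ (φ d) ≠ d`. If
`t d = t (φ (φ d))` then `φ d` is a good corner by `StIm`. -/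
def StXf : Prop :=
  ∀ (V D : Type) [Finite D] (M : PMap V D) (L : ℕ) (d0 : D), 4 ≤ L → Even L → HC M L → Conn M →
    OG M → Function.minimalPeriod M.φ d0 ≠ 2 → Function.minimalPeriod M.φ d0 ≠ L + 1 →
    ∃ d, M.t d ≠ M.t (M.φ (M.φ d)) ∧ ¬ Dg M L d

/-! ### Module L2 (lifting; 100-150 lines)

Compare `Pool.Agent.Helper51.OF4.LI` (the lifting for OF4). PROOF. Put `a = M.r.symm d`,
`b = M.ι (M.φ d)`, `M1 = fold M d h`, so `M1.r = M.r * swap a b`, `M.t a = M.t d`,
`M.t b = M.t (M.φ (M.φ d))`, `M1.ι = M.ι`, `M1.t e = pr .. (M.t e)`, and let `r'`, `U`, `τ`, `Z` be the data for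
`M1`. The same `U`, `τ`, `Z` are used for `M`; all conditions on `τ`, `Z` carry over.
CASE `M1.t a ∈ W1` (then also `M1.t b ∈ W1`): the same `r'`. For `M1.t e ∉ W1`: `e ≠ a, b`, so
`r' e = M1.r e = M.r e`.
CASE `M1.t a ∉ W1`: `r'' = r' * swap a b`. For `M1.t e ∉ W1`: `M1.t (swap a b e) ∉ W1` and
`r'' e = r' (swap a b e) = M1.r (swap a b e) = M.r e`. `r'` maps the darts not at `W1` into themselves, hence
also the darts at `W1` (finiteness); there `r'' = r'`. So the powers of `r''` and `r'` agree at the darts at
`W1`, the minimal periods are equal, and the third condition and `ST` carry over. `Pl r'' ι` by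
`Pl.split` (PM/Base.lean), because `r'.SameCycle a b` (`M1.trans`, and `r'` and `M1.r` agree on the darts at
`M1.t a ∉ W1`). -/
def StL2 : Prop :=
  ∀ (V D : Type) [Finite D] [DecidableEq V] [DecidableEq D] (M : PMap V D) (d : D)
    (h : M.t d ≠ M.t (M.φ (M.φ d))) (W1 : Set {v : V // v ≠ M.t (M.φ (M.φ d))}),
    Q (fold M d h) W1 → Q M (pr (M.t d) (M.t (M.φ (M.φ d))) h ⁻¹' W1)

/-- Module IND (induction; 60-100 lines). PROOF. Induction on `n`. If all faces of `M` have length `2` or
`L + 1` use the hypothesis. Otherwise `StOg`, `StXf` give `d` with `h : t d ≠ t (φ (φ d))` which is not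
blocked; `fold M d h` has less vertices, is connected (`StFc` of OF4), satisfies `HC` (`StFh`), and has an
odd dart: let `e` be an odd dart of `M`; if `e` is `d` or `φ d` replace it by `φ (φ d)`, which is different from
`d` and `φ d` and in the same face; `StP2` of OF4 (last part) for `φ` and `d`
(`(fold M d h).φ = M.φ * swap (M.φ.symm d) (M.φ d)`). `StL2` gives `W = pr ⁻¹' W1`; it is independent since
`(fold M d h).t e = pr (M.t e)`. -/
def StInd : Prop :=
  ∀ L : ℕ, 4 ≤ L → Even L →
    (∀ (V D : Type) [Finite V] [Nonempty V] [Finite D] (M : PMap V D), Conn M → HC M L →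
      (∃ d, OddD M d) →
      (∀ d, Function.minimalPeriod M.φ d = 2 ∨ Function.minimalPeriod M.φ d = L + 1) →
      ∃ W : Set V, (∀ d, M.t d ∈ W → M.t (M.ι d) ∉ W) ∧ Q M W) →
    ∀ (n : ℕ) (V D : Type) [Finite V] [Nonempty V] [Finite D] (M : PMap V D), Nat.card V ≤ n →
      Conn M → HC M L → (∃ d, OddD M d) →
      ∃ W : Set V, (∀ d, M.t d ∈ W → M.t (M.ι d) ∉ W) ∧ Q M W

/-! ## Part 2: the inequality -/

/-! ### Module HR (the rotation system of `HG G W S`; 120-180 lines)

`HG G W S` (OF4/St.lean) is the simple graph on `S` and one more vertex `none`. Compare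
`Pool.Agent.Helper15.OF4.C1` (the same construction). PROOF. Let `V0 = {v // v ∉ W} ⊕ Unit` and
`M' : PMap V0 G.Dart` the map with rotation `r'` (see StC1). For `z ∈ S` with a neighbour in `W` choose
one, `g z`. The darts of `HG G W S` are mapped to darts of `G` by `c`: `(some u, some v)` to `(u, v)`,
`(some z, none)` to `(z, g z)`, `(none, some z)` to `(g z, z)`. `PMap.exists_rot` (PM/Rot.lean) gives the
rotation system `R'` with `c (R'.r d) = (r'^(n+1)) (c d)` for some `n = n d`, such that
`(r'^(j+1)) (c d)` is not in the range of `c` for `j < n`. For `a0` put `a = c a0`, `k 0 = 0`,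
`k (i + 1) = k i + n ((R'.r^i) a0) + 1`; then `c ((R'.r^i) a0) = (r'^(k i)) a`. Let
`m = minimalPeriod R'.r a0`, `N = minimalPeriod r' a`. `(r'^(k m)) a = a`, so `N ∣ k m`, `N ≤ k m`
(`m ≠ 0`). `(r'^N) a = a` is in the range of `c`, so by the second property `N = k i` for some
`0 < i ≤ m`, and then `c ((R'.r^i) a0) = c a0`, so `i = m`. -/
def StHr : Prop :=
  ∀ (V : Type) [Finite V] (G : SimpleGraph V) (R : Rot G) (W : Set V) (r' : Perm G.Dart),
    (∀ a ∈ W, ∀ b ∈ W, ¬ G.Adj a b) →
    Pl r' SimpleGraph.Dart.symm → (∀ d : G.Dart, d.fst ∉ W → r' d = R.r d) →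
    (∀ d d' : G.Dart, d.fst ∈ W → d'.fst ∈ W → r'.SameCycle d d') →
    ∀ S : Finset V, (∀ v ∈ S, v ∉ W) →
    ∃ R' : Rot (HG G W S), ∀ a0 : (HG G W S).Dart, a0.fst = none →
      ∃ (k : ℕ → ℕ) (a : G.Dart), a.fst ∈ W ∧ k 0 = 0 ∧ (∀ i, k i < k (i + 1)) ∧
        k (Function.minimalPeriod R'.r a0) = Function.minimalPeriod r' a ∧
        ∀ i, ∃ x : {v : V // v ∈ S}, ((R'.r ^ i) a0).snd = some x ∧ ((r' ^ (k i)) a).snd = x.1

/-! ### Module FA (the faces of `HG G W S`; 150-220 lines)

PROOF. Let `H = HG G W S`, `φ = R'.φ`, `(φ d).fst = d.snd`. `H` is connected (`G[S]` is, and `none` has a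
neighbour) and has at least three vertices. (0) If `φ (φ d) = d` then `φ d = d.symm` (simple graph: it starts
at `d.snd` and ends at `(φ (φ d)).fst = d.fst`), i.e. `R'.r d.symm = d.symm`, and likewise `R'.r d = d`; so
`d.fst`, `d.snd` have only one dart each (`R'.trans`), and by connectedness `H` has only two vertices,
contradiction. `φ d ≠ d` always. So all periods are at least `3`.
(1) No dart of the cycle of `d` starts at `none`: then no one ends at `none`, the vertices of the cycle form
a closed walk in `G[S]`, mapped by `τ` to a closed walk in `F`, so its length is even (2-colouring of `F`),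
and at least `4` by (0).
(2) `d.fst = none`. At most one dart of a cycle starts at `none`: if `d ≠ e` both start at `none` and are
in the same cycle then `StCutV` (PM) for `R'.map` gives `c` with `c (a.symm) = c a`, `c (R'.r a) = c a` for
`a.fst ≠ none`, `c d ≠ c e`; `c` is constant on the darts which start in `S` (`G[S]` is connected), in
particular `c d = c d.symm = c e.symm = c e`, contradiction.
(3) Let `n` be the period of `d`, `b = (φ^(n-1)) d`; `φ b = d`, `b.snd = none`, `R'.r b.symm = d`, so
`b.symm = R'.r.symm d`, `b.fst = some y`. The vertices `(φ^1 d).fst = some x, (φ^2 d).fst, ...,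
(φ^(n-1) d).fst = some y` form a walk of length `n - 2` in `G[S]` ((2): only `d` starts at `none`); its
image is a walk in `F` from `τ x` to `τ y`, so `F.dist (τ x) (τ y) ≤ n - 2`. If `τ x = τ y` its length is
even (2-colouring of `F`), so `n` is even, and `n ≥ 4` by (0). -/
def StFa : Prop :=
  ∀ (V : Type) [Finite V] (G : SimpleGraph V) (W : Set V) (S : Finset V) (R' : Rot (HG G W S))
    (U : Type) (F : SimpleGraph U) (τ : V → U), (G.induce (S : Set V)).Connected → 2 ≤ S.card →
    (∃ v ∈ S, ∃ w ∈ W, G.Adj v w) → F.Colorable 2 →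
    (∀ u ∈ S, ∀ v ∈ S, G.Adj u v → F.Adj (τ u) (τ v)) →
    (∀ d : (HG G W S).Dart, (∀ j : ℕ, ((R'.φ ^ j) d).fst ≠ none) →
      4 ≤ Function.minimalPeriod R'.φ d) ∧
    ∀ d : (HG G W S).Dart, d.fst = none →
      (∀ e : (HG G W S).Dart, e.fst = none → R'.φ.SameCycle d e → e = d) ∧
      ∀ x y, d.snd = some x → (R'.r.symm d).snd = some y →
        (τ x.1 = τ y.1 → 4 ≤ Function.minimalPeriod R'.φ d) ∧
        F.dist (τ x.1) (τ y.1) + 2 ≤ Function.minimalPeriod R'.φ d

/-- Module CC (counting; 50-80 lines). PROOF. `card D` is the sum over the cycles of their numbers of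
elements (the minimal period of any element). Every cycle contains at most one element of `N`; those
without an element of `N` have at least `4` elements, the one of `a ∈ N` at least `ℓ a`. -/
def StCc : Prop :=
  ∀ (D : Type) [Fintype D] [DecidableEq D] (φ : Perm D) (N : Finset D) (ℓ : D → ℤ),
    (∀ a ∈ N, ∀ b ∈ N, φ.SameCycle a b → a = b) →
    (∀ d, (∀ a ∈ N, ¬ φ.SameCycle a d) → 4 ≤ Function.minimalPeriod φ d) →
    (∀ a ∈ N, ℓ a ≤ (Function.minimalPeriod φ a : ℤ)) →
    4 * (Nat.card (Quotient (SameCycle.setoid φ)) : ℤ) + ∑ a ∈ N, (ℓ a - 4) ≤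
      (Fintype.card D : ℤ)

/-! ### Module IQC (the inequality, connected case; 150-220 lines)

PROOF. From `StHr`, `StFa`, `StCc`, `StEul` (PM). Let `r'`, `U`, `τ`, `Z` be the data of `Q R.map W`,
`F = FG .. τ Z` (2-colourable: `IsAcyclic.colorable_two`), `τv v = τ d` for any dart `d` with `d.fst = v` (all
`v ∈ S` have a dart, as `G[S]` is connected with at least two vertices; arbitrary value otherwise: `U` is
nonempty); adjacent `u, v ∈ S` have adjacent images in `F` (the dart `d = (u, v)`: `τ d ∉ Z`, `τ (ι d) ∉ Z`,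
`τ (ι d) ≠ τ d`). Let `R'` be from `StHr`, `H = HG G W S`, `N` the set of the darts of `H` starting at `none`,
`m = |N|`, `a0 ∈ N`. All elements of `N` are `a_i = (R'.r^i) a0` for a unique `i < m = minimalPeriod R'.r a0`
(`R'.trans`, `R'.fst_r`), `a_i.snd = some x_i` and `v i = τ (ι ((r'^(k i)) a)) = τv x_i` is the `v i` of `ST`.
Put `ℓ (a_i) = 4` if `v i = v (i - 1)` and `2 + dist (v i) (v (i - 1))` otherwise (`a_(i-1) = R'.r.symm a_i`,
cyclically). `StFa` and `StCc` give `4 f + ∑ (ℓ a - 4) ≤ 2 e` (`e` the number of edges of `H`, the number of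
darts is `2 e`: `SimpleGraph.dart_card_eq_twice_card_edges`), `StEul`: `f = 2 - n + e`, `n = |S| + 1`. So
`2 e ≤ 4 n - 8 + ∑ (4 - ℓ a)`, and `∑ (4 - ℓ a)` is twice the number of the `i` with `v i ≠ v (i - 1)` minus
the sum of the distances (which are `0` for the other `i`), so it is at most `4` by `ST` (the sum over `i`
and `i - 1` is the sum over `i + 1` and `i`; `v m = v 0`; reachability since `G[S]` is connected). So
`2 e ≤ 4 |S|`, and `eN G S + |{v ∈ S | ...}| ≤ e` (injection of these edges and vertices into the edges of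
`H`; see `Pool.Agent.Helper72.OF4.C3`). -/
def StIqc : Prop :=
  ∀ (V : Type) [Finite V] (G : SimpleGraph V) (R : Rot G) (W : Set V),
    (∀ a ∈ W, ∀ b ∈ W, ¬ G.Adj a b) → Q R.map W →
    ∀ S : Finset V, (∀ v ∈ S, v ∉ W) → (G.induce (S : Set V)).Connected → 2 ≤ S.card →
      (∃ v ∈ S, ∃ w ∈ W, G.Adj v w) →
      eN G S + {v : V | v ∈ S ∧ ∃ w ∈ W, G.Adj v w}.ncard ≤ 2 * S.card

/-! ### Module IQ (the inequality; 80-120 lines)

PROOF. Strong induction on `|S|`. `|S| ≤ 1`: `eN G S = 0`, the second term is at most `|S|`. If `G[S]` is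
connected and `|S| ≥ 2`: `StIqc`, or, if no vertex of `S` has a neighbour in `W`, `StEub` of HY for
`G.induce S` (planar and triangle-free; `StSub`, `StCnt`); for `|S| = 2` `eN G S ≤ 1`. If `G[S]` is not
connected, `S` is the disjoint union of two nonempty sets without edges between them, and both terms are
additive (`StCnt (2)`; compare `Pool.Agent.Helper72.OF4.C3`). -/
def StIq : Prop :=
  ∀ (V : Type) [Finite V] (G : SimpleGraph V) (R : Rot G) (W : Set V), TF G →
    (∀ a ∈ W, ∀ b ∈ W, ¬ G.Adj a b) → Q R.map W →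
    ∀ S : Finset V, (∀ v ∈ S, v ∉ W) →
      eN G S + {v : V | v ∈ S ∧ ∃ w ∈ W, G.Adj v w}.ncard ≤ 2 * S.card

/-- Module FI2 (assembly; 60-100 lines). PROOF. If no dart of `R.map` is odd: `stFi` of OF4 with `O = ∅`.
Otherwise `StInd` for `M = R.map` (`Conn` from `G.Connected`) gives `W`, independent in `G`. `p v`: a
2-colouring `q` of the forest (`IsAcyclic.colorable_two`), `p v` determined by `q (τ d)` for a dart `d` with
`d.fst = v` (if there is one); it is proper outside `W`. `StIq`, `StCo` of OF4. -/
def StFi2 : Prop :=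
  ∀ L : ℕ, 4 ≤ L → Even L →
    (∀ (V D : Type) [Finite V] [Nonempty V] [Finite D] (M : PMap V D), Conn M → HC M L →
      (∃ d, OddD M d) →
      (∀ d, Function.minimalPeriod M.φ d = 2 ∨ Function.minimalPeriod M.φ d = L + 1) →
      ∃ W : Set V, (∀ d, M.t d ∈ W → M.t (M.ι d) ∉ W) ∧ Q M W) →
    ∀ (V : Type) [Finite V] (G : SimpleGraph V) (R : Rot G), G.Connected → TF G → HC R.map L →
    ∀ (C : V → Finset ℕ) (A : Finset ℕ), (∀ v, (C v ∩ A).card = 1 ∧ (C v \ A).card = 2) →
    ∃ c : V → ℕ, (∀ v, c v ∈ C v) ∧ ∀ u v, G.Adj u v → c u ≠ c v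

/-! ## Part 2a: merging in the final maps -/

/-! ### Module FR (face functions which change only along the forest; 120-180 lines)

PROOF. Strong induction on `cut M p`. If it is `0`: `StCn0`. Otherwise let `T` be the simple graph on `V`
with `x ~ y` iff there is a dart `e` with `p (ι e) ≠ p e`, `t e = x`, `t (ι e) = y`; it is a subgraph of the
forest `FG M.ι M.t W` and has an edge, so it has a vertex `x` with exactly one neighbour `y` (a finite
acyclic graph with an edge has a vertex of degree one; take e.g. the end of a longest path). The number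
of the darts `e` at `x` with `p (ι e) ≠ p e` is even: `p (ι e) = p (φ (ι e)) = p (r e)`, and the sum of
`p (r e) + p e` over the darts at `x` is `0`. So there are two such darts `e1 ≠ e2` at `x`, both with other
end `y`; the darts `e1, ι e1, e2, ι e2` are different. As in OGM (vertex sums: two at `x`, two at `y`) there
is a `w` with `FC`, `w (ι e) = w e + [e is one of the four]`; `cut w = 4 < 2 L`, so `w` does not separate:
it is constant on the odd darts. `p + w` satisfies the hypotheses, `cut (p + w) = cut p - 4`. -/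
def StFr : Prop :=
  ∀ (V D : Type) [Finite V] [Finite D] (M : PMap V D) (L : ℕ) (W : Set V), 3 ≤ L → Conn M →
    HC M L → (∀ d, M.t (M.ι d) ≠ M.t d) → (FG M.ι M.t W).IsAcyclic →
    ∀ p : D → ZMod 2, FC M p →
    (∀ e, p (M.ι e) ≠ p e → M.t e ∉ W ∧ M.t (M.ι e) ∉ W) →
    ∀ a b, OddD M a → OddD M b → p a = p b

/-! ### Module VO (every vertex is on an odd face; 60-100 lines)

PROOF. Suppose that no dart at `v` is odd. `v` has a dart (`Conn`, there is a dart). For every dart `e` at
`v` the face is `{e, φ e}`, `φ (φ e) = e`; since `φ (ι (r⁻¹ e)) = e`, `φ e = ι (r⁻¹ e)`. So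
`t (ι e) = t (φ e) = t (ι (r⁻¹ e))`: all the darts at `v` have the same other end `z`. Let
`B = {ι e | t e = v}`; `r (ι e) = φ e = ι (r⁻¹ e) ∈ B` for `t e = v`, so `B` is the set of all darts at `z`
(`M.trans`; if `z = v` fine as well). So the darts at `v` and at `z` are only joined with each other, by
`Conn` all darts are at `v` or `z`, and all of them are in faces of length two (`φ (ι (r⁻¹ e)) = e`, the face
of `ι (r⁻¹ e)` is the face of `e`), contradiction. -/
def StVo : Prop :=
  ∀ (V D : Type) [Finite D] (M : PMap V D), Conn M → (∃ d, OddD M d) →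
    (∀ d, Function.minimalPeriod M.φ d = 2 ∨ OddD M d) → ∀ v : V, ∃ e, M.t e = v ∧ OddD M e

/-! ### Module MG (merging; 150-220 lines)

PROOF. Call a dart at `W` a `W`-dart. For a permutation `r'` which agrees with `M.r` off the `W`-darts (so it
maps `W`-darts to `W`-darts, by finiteness) and satisfies `Pl r' ι` let `φ' = r' * ι`, and let `INV(r')` be
the property: every `p` with `p (φ' d) = p d` for all `d`, and `p (ι e) ≠ p e` only if both ends of `e` are not
in `W`, is constant on the `W`-darts. `INV(M.r)` is the hypothesis. Choose `r'` with these properties such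
that the number of pairs of `W`-darts in the same cycle of `r'` is maximal. Suppose there are `W`-darts in
different cycles of `r'`.
(1) There are `W`-darts `a'`, `b'` in different cycles of `r'` and in the same cycle of `φ'`: otherwise let
`c` be a `W`-dart and `p d = 1` iff the `φ'`-cycle of `d` contains a dart of the `r'`-cycle of `c`. For a
`W`-dart `e` of the `r'`-cycle of `c`: `p e = 1`, and `p (ι e) = 1` because `φ' (ι e) = r' e`. For any other
`W`-dart `e`: `p e = 0` and `p (ι e) = 0` by assumption. So if `p (ι e) ≠ p e` then neither `e` nor `ι e` is a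
`W`-dart, and `INV(r')` is contradicted.
(2) Put `a = r'⁻¹ a'`, `b = r'⁻¹ b'`, `r'' = r' * swap a b`. `φ' (ι a) = a'`, `φ' (ι b) = b'`, so `ι a`, `ι b` are
in the same `φ'`-cycle and `Pl r'' ι` by `Pl.merge` (PM/Base.lean). `a`, `b` are `W`-darts. The cycles of `r'`
are contained in cycles of `r''`, and `a`, `b` are in the same one (`PM.SameCycle.mul_swap`,
`sameCycle_mul_swap` in PM/Cyc.lean), so the number of pairs is larger. `INV(r'')`: let `p` be constant on the
cycles of `φ'' = r'' * ι` with the second property. For `W`-darts `e`: `p (r'' e) = p (φ'' (ι e)) = p (ι e)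
= p e`, so `p` is constant on the `r''`-cycles of `W`-darts. `φ'` and `φ''` differ only at `ι a`, `ι b`:
`φ' (ι a) = r' a = r'' b`, `p (r'' b) = p b = p a = p (ι a)`, and `φ' (ι b) = r'' a` in the same way. So `p` is
constant on the `φ'`-cycles and `INV(r')` applies. This contradicts the choice of `r'`. -/
def StMg : Prop :=
  ∀ (V D : Type) [Finite D] (M : PMap V D) (W : Set V), (∀ d, M.t d ∈ W → M.t (M.ι d) ∉ W) →
    (∀ p : D → ZMod 2, FC M p → (∀ e, p (M.ι e) ≠ p e → M.t e ∉ W ∧ M.t (M.ι e) ∉ W) →
      ∀ a b, M.t a ∈ W → M.t b ∈ W → p a = p b) →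
    ∃ r' : Perm D, Pl r' M.ι ∧ (∀ d, M.t d ∉ W → r' d = M.r d) ∧
      ∀ d d', M.t d ∈ W → M.t d' ∈ W → r'.SameCycle d d'

/-! ### Module AS (`AF` gives `AFs`; 120-180 lines)

PROOF. Let `a, b, c, e` be `W`-darts (`t ∈ W`; `r'` preserves them) in this cyclic order of `r'`,
`b = r'^i a`, `c = r'^j a`, `e = r'^k a`, and `v = t (ι a) = t (ι c)`, `v ∉ W`. Suppose `t (ι b) ≠ v`,
`t (ι e) ≠ v`, both reachable from `v` in the forest graph. Let `x` be the indicator of the four different
darts `a, ι a, c, ι c`. Its sum over the cycles of `r'` vanishes: the cycle of the `W`-darts contains `a` and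
`c`, the cycle of the darts at `v` contains `ι a` and `ι c` (`r' = M.r` there). So there is `u` with
`u (r' d) = u d + x d` (`Pool.Agent.Helper64.OF.hPP`) and by `Pl r' ι` a `y` with `y (r' d) = y d + x d`,
`y (ι d) = y d + x d`. Along the `W`-cycle: `y (r'^s a) = y a + 1` for `1 ≤ s ≤ j`, and `= y a` for
`j < s ≤ minimalPeriod`. So `y b = y a + 1`, `y e = y a`. CLAIM: for `f ∈ {b, e}` there is a dart `β` at `v` with
`t (ι β) ∉ W` and `y β = y f`. Indeed `y (ι f) = y f`; take a path in the forest graph from `t (ι f)` to `v`;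
`y` is constant on the darts at each vertex of the path different from `v` (such a vertex is not in `W`,
`r' = M.r` there and `x = 0`), and along the darts of the path (`x = 0` for darts with both ends outside
`W`); the last dart `g` of the path ends at `v`, `β = ι g`. Let `β`, `ε` be the darts for `b`, `e`:
`y β ≠ y ε`, both different from `ι a`, `ι c` (their other ends are not in `W`). At `v`: `y (r^s (ι a))` is
`y (ι a) + 1` up to `ι c` and `y (ι a)` after it; so one of `β`, `ε` is strictly between `ι a` and `ι c` and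
the other one strictly between `ι c` and `ι a`: `Alt M.r (ι a) β (ι c) ε` or `Alt M.r (ι a) ε (ι c) β`. This
contradicts `AF` (the other ends of `ι a`, `ι c` are in `W`). -/
def StAs : Prop :=
  ∀ (V D : Type) [Finite D] (M : PMap V D) (W : Set V) (r' : Perm D),
    (∀ d, M.t d ∈ W → M.t (M.ι d) ∉ W) → (∀ d, M.t (M.ι d) ≠ M.t d) → Pl r' M.ι →
    (∀ d, M.t d ∉ W → r' d = M.r d) →
    (∀ d d', M.t d ∈ W → M.t d' ∈ W → r'.SameCycle d d') → AF M W → AFs r' M.ι M.t W

/-! ### Module TR (closed walks in forests; 80-140 lines)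

PROOF. Concatenating shortest walks from `v i` to `v (i + 1)` gives a closed walk of length
`ℓ = ∑ dist` whose support contains all `v i`. LEMMA: in an acyclic graph a closed walk of length `ℓ` has
at most `ℓ / 2 + 1` different vertices, i.e. `2 * |support| ≤ ℓ + 2`. Proof of the lemma, e.g. by strong
induction on `ℓ`: if `ℓ > 0` the closed walk `v → w → ... → v`: the first edge `s(v, w)` is a bridge
(`isAcyclic_iff_forall_edge_isBridge`), so the rest of the walk crosses it back at some time; this
decomposes the walk into `v → w`, a closed walk at `w` of length `ℓ1`, `w → v`, and a closed walk at `v` of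
length `ℓ2`, `ℓ1 + ℓ2 + 2 = ℓ`; the number of vertices is at most `(ℓ1 / 2 + 1) + (ℓ2 / 2 + 1)`. (Or: edges of
a closed walk in a forest are used at least twice, and the edges of the walk form a connected graph.) -/
def StTr : Prop :=
  ∀ (U : Type) (F : SimpleGraph U), F.IsAcyclic → ∀ (m : ℕ) (v : ℕ → U), 0 < m → v m = v 0 →
    (∀ i < m, F.Reachable (v 0) (v i)) →
    2 * {x | ∃ i < m, v i = x}.ncard ≤ (∑ i ∈ Finset.range m, F.dist (v i) (v (i + 1))) + 2

/-! ### Module STM (`AFs` gives `ST`; 100-150 lines)

PROOF. From `StTr`. Let `v i = τ (ι ((r'^(k i)) a))`, `v m = v 0` (as `k m` is the minimal period), `0 < m`.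
All `(r'^s) a` are in `Z` (hypothesis). Let `C = {i < m | v i ≠ v (i + 1)}` and `X = {v i | i < m}`. The map
`C → X`, `i ↦ v (i + 1)`, is injective: suppose `i < i'` in `C` with `v (i + 1) = v (i' + 1) = x`. Then
`v i ≠ x`, `v i' ≠ x`, so `i + 1 < i'`. The darts `A = r'^(k (i+1)) a`, `B = r'^(k i') a`,
`E = r'^(k (i'+1)) a` and `G = r'^(k i) a` satisfy `Alt r' A B E G`: exponents
`k i' - k (i+1) < k (i'+1) - k (i+1) < k i + N - k (i+1)` (`N = k m` the minimal period of `a` and of all
`r'^s a`; the second inequality: `k (i'+1) < k i + N`, because `k (i'+1) ≤ k m = N` and if `k i = 0`, i.e.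
`i = 0`, then `i' + 1 < m`, as `i' + 1 = m` would give `v 0 = v m = x`, but `v i ≠ x`). `AFs` gives
`v i = x`, contradiction (all `v` are reachable from each other). So `|C| ≤ |X|`, and
`2 |C| ≤ 2 |X| ≤ ∑ dist + 2`. -/
def StStm : Prop :=
  ∀ (D U : Type) [Finite D] (r' : Perm D) (ι : D → D) (τ : D → U) (Z : Set U),
    (∀ d, τ d ∈ Z → τ (r' d) ∈ Z) → (FG ι τ Z).IsAcyclic → AFs r' ι τ Z → ST r' ι τ Z

/-- Module QF (assembly of part 2a; 40-60 lines). PROOF. `U = V`, `τ = M.t`, `Z = W`. `StFr` and `StVo` give
the hypothesis of `StMg`: for a dart `a` at `w ∈ W` take an odd dart `a'` at `w`; `p a = p a'`, because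
`p (r e) = p (φ (ι e)) = p (ι e) = p e` for the darts `e` at `w`. `StMg` gives `r'`, `StAs` and `StStm` the
condition `ST` (`r'` maps `W`-darts to `W`-darts: it maps the others to the others, finiteness). -/
def StQf : Prop :=
  ∀ (V D : Type) [Finite V] [Finite D] (M : PMap V D) (L : ℕ) (W : Set V), 3 ≤ L → Conn M →
    HC M L → (∃ d, OddD M d) → (∀ d, Function.minimalPeriod M.φ d = 2 ∨ OddD M d) →
    (∀ d, M.t (M.ι d) ≠ M.t d) → (∀ d, M.t d ∈ W → M.t (M.ι d) ∉ W) →
    (FG M.ι M.t W).IsAcyclic → AF M W → Q M W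

end Pool.Agent.Helper77.SO
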