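import Pool.Agent.Helper77.SO.St

/-!
# MP_7a9ddc_co, project SO: statements of the modules of part 3 (the set `W` in the final maps)

The final maps have faces of length `2` and `L + 1` only (`L = 10`). Their simple graphs are planar
without cycles of length less than `10`, so sparse; `W` is found by induction on the number of vertices,
removing a reducible configuration (discharging).
-/

set_option autoImplicit false

namespace Pool.Agent.Helper77.SO

open Equiv Equiv.Perm Pool.Agent.Helper35.PM Pool.Agent.Helper77.HY Pool.Agent.Helper77.OF4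

/-! ### Module GI (no short cycles; 100-160 lines)

PROOF. Let `v 0, ..., v (m-1)` be the vertices of the cycle `c`, `m = c.length ≥ 3`, and choose darts `k j`
(`j : ZMod m`) from `v j` to `v (j + 1)`. `k i ≠ ι (k j)`: otherwise `v i = v (j + 1)`, `v (i + 1) = v j`, so
`i = j + 1`, `i + 1 = j`, `2 = 0` in `ZMod m`. `StJor` (PM) gives `y` with `FC`, `y (ι d) = y d` and
`y (r d) = y d` off the curve, `y (ι d) ≠ y d` and `y (r d) ≠ y d` for the darts `k j`, `ι (k j)`. So
`cut y = 2 m`, and it suffices to show that `y` separates. Suppose it does not; then one of the two values,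
`η`, is not taken at odd darts, so all darts with `y = η` are in faces of length two. The darts at `v 0` on
the curve are `α = k 0` and `β = ι (k (-1))`, and `y` changes along `r` at `v 0` exactly after `α` and after
`β`; so `y α ≠ y β` (go from `r α` to `β`). Let `y β = η` (otherwise exchange the roles of `α` and `β`); then
the darts `r α, r² α, ..., β` all have value `η`. For a dart `d` in a face of length two:
`φ (ι (r⁻¹ d)) = d = φ (φ d)`, so `φ d = ι (r⁻¹ d)` and `t (ι d) = t (φ d) = t (ι (r⁻¹ d))`. So `α` and `β` have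
the same other end: `v 1 = v (-1)`, contradiction to `m ≥ 3`. -/
def StGi : Prop :=
  ∀ (V D : Type) [Finite V] [Finite D] (M : PMap V D) (L : ℕ), HC M L →
    (∀ d, M.t (M.ι d) ≠ M.t d) → (∀ d, Function.minimalPeriod M.φ d = 2 ∨ OddD M d) →
    ∀ (v : V) (c : M.graph.Walk v v), c.IsCycle → L ≤ c.length

/-! ### Module EB (planar graphs without short cycles are sparse; 150-200 lines)

PROOF. It suffices to treat `Y = univ` (apply it to `G.induce Y`: planar by `StSub` of HY, cycles map to
cycles; `StCnt (4)`): `(g - 2) e < g n` if `n ≥ 1`. Strong induction on `n`. If there is a vertex of degree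
at most `1`, delete it (`n ≥ 2`; `e` decreases by at most `1`, `g - 2 ≤ g`; if `n = 1` then `e = 0`). If `G` is
not connected, it is the disjoint union of two nonempty sets without edges between them; add the two
inequalities. Otherwise `G` is connected with minimum degree at least `2`, and every face has length at
least `g`: let `d` be a dart, `ℓ` the length of its face and `f i = ((R.φ^i) d).fst`; `f (i+1)` is adjacent
to `f i`, `f (i+2) ≠ f i` (otherwise `R.φ a = a.symm` for `a = (R.φ^i) d`, so `R.r a.symm = a.symm` and `a.snd`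
has degree one), `f ℓ = f 0`. Choose `i < j` with `f i = f j` and `j - i` minimal, so `j - i ≤ ℓ`;
`f i, ..., f (j-1)` are different, `j - i ≥ 3`, so they form a cycle of length `j - i ≤ ℓ`, hence `g ≤ ℓ`.
So `2 e ≥ g f`, and Euler (`StEul`) `n - e + f = 2` gives `2 e ≥ g (2 - n + e)`, `(g - 2) e ≤ g (n - 2)`. -/
def StEb : Prop :=
  ∀ (V : Type) [Finite V] (G : SimpleGraph V) (g : ℕ), 3 ≤ g → Planar G →
    (∀ (v : V) (c : G.Walk v v), c.IsCycle → g ≤ c.length) →
    ∀ Y : Finset V, Y.Nonempty → (g - 2) * eN G Y < g * Y.card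

/-! ### Module BU (parallel darts are contiguous; 80-120 lines)

PROOF. `a ≠ c` start at `v` and end at `w ≠ v`; the four darts `a, ι a, c, ι c` are different. As in FR
there is a `y` with `y (r d) = y d + x d`, `y (ι d) = y d + x d`, `x` the indicator of the four darts; `FC y`,
`cut y = 4 < 2 L`, so `y` does not separate: one of the values, `η`, is not taken at odd darts, so all darts
with `y = η` are in faces of length two. Let `b = r^i a`, `c = r^j a`, `e = r^k a`. `y (r^s a) = y a + 1` for
`1 ≤ s ≤ j` and `= y a` for `j < s ≤ minimalPeriod r a`. For a dart `d` in a face of length two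
`t (ι d) = t (ι (r⁻¹ d))` (see GI). If `η = y a + 1`: the darts `r^s a`, `s ≤ j`, all have the same other
end, in particular `b`. If `η = y a`: the darts `r^s a`, `j ≤ s ≤ minimalPeriod r a`, all have the same
other end, in particular `e`. -/
def StBu : Prop :=
  ∀ (V D : Type) [Finite D] (M : PMap V D) (L : ℕ), 3 ≤ L → HC M L →
    (∀ d, M.t (M.ι d) ≠ M.t d) → (∀ d, Function.minimalPeriod M.φ d = 2 ∨ OddD M d) →
    ∀ a b c e, Alt M.r a b c e → M.t (M.ι c) = M.t (M.ι a) →
      M.t (M.ι b) = M.t (M.ι a) ∨ M.t (M.ι e) = M.t (M.ι a)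

/-! ### Module AR (replacing a dart by a parallel one; 60-100 lines)

PROOF. First: `Alt` is invariant under rotation (`Alt M.r a b c e → Alt M.r b c e a`), so it suffices to
replace the first dart `a` by a dart `a'` with the same ends. `a' = r^s a`, `0 < s < N`
(`N = minimalPeriod r a`; if `a' = a` nothing is to do). `s ≠ i, j, k` since the other ends of `b` and `e` are
different from the one of `a`, and the same for `c`, by assumption. If `s < i` or `k < s` then
`Alt M.r a' b c e`. If `i < s < j`: `Alt M.r a b a' c`, if `j < s < k`: `Alt M.r a c a' e`; this contradicts the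
hypothesis on parallel darts. -/
def StAr : Prop :=
  ∀ (V D : Type) [Finite D] (M : PMap V D),
    (∀ a b c e, Alt M.r a b c e → M.t (M.ι c) = M.t (M.ι a) →
      M.t (M.ι b) = M.t (M.ι a) ∨ M.t (M.ι e) = M.t (M.ι a)) →
    (∀ a b c e, Alt M.r a b c e → Alt M.r b c e a) ∧
    ∀ a a' b c e, Alt M.r a b c e → M.t a' = M.t a → M.t (M.ι a') = M.t (M.ι a) →
      M.t (M.ι b) ≠ M.t (M.ι a) → M.t (M.ι c) ≠ M.t (M.ι a) → M.t (M.ι e) ≠ M.t (M.ι a) →
      Alt M.r a' b c e

/-! ### Module AFM (from the simple graph to the map; 100-150 lines)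

PROOF. From `StAr`. Choose for every dart `d` of the simple graph `M.graph` a dart `c d` of `M` from `d.fst` to
`d.snd` such that `c d.symm = ι (c d)` (choose one for each edge). `PMap.exists_rot` (PM/Rot.lean, `g = id`)
gives `R0` with `c (R0.r d) = (M.r^(k+1)) (c d)` and `(M.r^(j+1)) (c d)` not in the range of `c` for `j < k`.
(1) If `Alt M.r (c a) (c b) (c c') (c e)` then `Alt R0.r a b c' e`: the elements `(R0.r^i) a` of the cycle of
`a` correspond to the elements of the range of `c` in the cycle of `c a`, in the same order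
(`c ((R0.r^i) a) = (M.r^(κ i)) (c a)` with `κ` strictly increasing, `κ` of the period is the period, and every
`(M.r^s) (c a)` in the range of `c` is one of them; compare StHr). (2) Let `Alt M.r a b c e`, `t a ∉ W`,
`t (ι a), t (ι c) ∈ W`, `t (ι b), t (ι e) ∉ W`. If `t (ι a) = t (ι c)` this contradicts the hypothesis on parallel
darts; the same for `b`, `e` (rotate). So the four other ends are different, and `StAr` (four times, with
rotations) gives `Alt M.r` for the four chosen darts; by (1) `Alt R0.r` for the corresponding darts of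
`M.graph`; this contradicts the hypothesis on `R0`. -/
def StAfm : Prop :=
  ∀ (V D : Type) [Finite V] [Finite D] (M : PMap V D), (∀ d, M.t (M.ι d) ≠ M.t d) →
    (∀ a b c e, Alt M.r a b c e → M.t (M.ι c) = M.t (M.ι a) →
      M.t (M.ι b) = M.t (M.ι a) ∨ M.t (M.ι e) = M.t (M.ι a)) →
    ∃ R0 : Rot M.graph, ∀ W : Set V,
      (∀ a b c e : M.graph.Dart, a.fst ∉ W → Alt R0.r a b c e → a.snd ∈ W → b.snd ∉ W →
        c.snd ∈ W → e.snd ∈ W) → AF M W

/-! ### Good sets -/

section good

variable {V : Type} {G : SimpleGraph V}

/-- among the neighbours of `v` in `X` those in `W` are contiguous -/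
def AFV (R : Rot G) (X W : Finset V) (v : V) : Prop :=
  ∀ a b c e : G.Dart, a.fst = v → Alt R.r a b c e → a.snd ∈ X → b.snd ∈ X → c.snd ∈ X →
    e.snd ∈ X → a.snd ∈ W → b.snd ∉ W → c.snd ∈ W → e.snd ∈ W

/-- `W` is a good subset of `X`: independent, `X \ W` induces a forest, and around the vertices of
`X \ W` the neighbours in `W` are contiguous among the neighbours in `X` -/
def Good (R : Rot G) (X W : Finset V) : Prop :=
  W ⊆ X ∧ (∀ a ∈ W, ∀ b ∈ W, ¬ G.Adj a b) ∧
    (G.induce {v | v ∈ X ∧ v ∉ W}).IsAcyclic ∧ ∀ v ∈ X, v ∉ W → AFV R X W v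

end good

/-- Module NV (20-40 lines). PROOF. If `AFV` fails for `a, b, c, e` then `a.snd ≠ c.snd` are neighbours of `v` in
`W`, `b.snd ≠ e.snd` neighbours outside `W` (the four darts are different and start at `v`). -/
def StNv : Prop :=
  ∀ (V : Type) [Finite V] (G : SimpleGraph V) (R : Rot G) (X W : Finset V) (v : V),
    ¬ AFV R X W v → 2 ≤ {u : V | u ∈ X ∧ G.Adj v u ∧ u ∈ W}.ncard ∧
      2 ≤ {u : V | u ∈ X ∧ G.Adj v u ∧ u ∉ W}.ncard

/-! ### Module ACC (a new neighbour can be accepted; 80-120 lines)

PROOF. Suppose both alternatives fail. Each violation must use the dart `d = (v, x)` (otherwise it is a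
violation of `AFV R X W v`); rotating it we get from the failure of the first one `Alt R.r d b c e` with
`b.snd ∉ W`, `c.snd ∈ W`, `e.snd ∉ W` (all in `X`), and from the second one `Alt R.r d b' c' e'` with
`b'.snd ∈ W`, `c'.snd ∉ W`, `e'.snd ∈ W`. Let `f = r^s d`, `0 < s < N`, be the dart with the smallest `s` such
that `f.snd ∈ X`. If `f.snd ∈ W` then `f` comes before `b` (`f ≠ b`), and `Alt R.r f b c e` with types
`W, not W, W, not W`: contradiction to `AFV R X W v`. If `f.snd ∉ W` then `f` comes before `b'`, and
`Alt R.r f b' c' e'` has types `not W, W, not W, W`; rotate: `Alt R.r b' c' e' f`, contradiction. -/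
def StAcc : Prop :=
  ∀ (V : Type) [Finite V] [DecidableEq V] (G : SimpleGraph V) (R : Rot G) (X W : Finset V)
    (v x : V), x ∉ X → W ⊆ X → G.Adj v x → AFV R X W v →
    AFV R (insert x X) (insert x W) v ∨ AFV R (insert x X) W v

/-- Module ADD (adding a vertex; 80-120 lines). PROOF. `(1)` The set of the vertices outside `W` is the same;
`AFV` at a vertex which is not adjacent to `x` is the same condition. `(2)` The new vertex `x` has at most one
neighbour outside `W`, so it is on no cycle of the new induced graph (a cycle through `x` contains two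
neighbours of `x`); a cycle not through `x` is a cycle of the old graph. -/
def StAdd : Prop :=
  ∀ (V : Type) [Finite V] [DecidableEq V] (G : SimpleGraph V) (R : Rot G) (X W : Finset V) (x : V),
    x ∉ X → Good R X W →
    ((∀ v ∈ W, ¬ G.Adj x v) → (∀ v ∈ X, G.Adj x v → AFV R (insert x X) (insert x W) v) →
      Good R (insert x X) (insert x W)) ∧
    ({v : V | v ∈ X ∧ v ∉ W ∧ G.Adj x v}.ncard ≤ 1 →
      (∀ v ∈ X, v ∉ W → G.Adj x v → AFV R (insert x X) W v) → AFV R (insert x X) W x →
      Good R (insert x X) W)

/-- the number of neighbours of `v` in `X` -/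
noncomputable def dX {V : Type} (G : SimpleGraph V) (X : Finset V) (v : V) : ℕ :=
  {u : V | u ∈ X ∧ G.Adj v u}.ncard

/-! ### Module R12 (reducible vertices of degree at most two; 80-120 lines)

PROOF. From `StNv`, `StAcc`, `StAdd`; `X = insert x (X.erase x)`. Let `W` be good for `X.erase x`. `AFV` holds
at `x` and at all vertices with at most three neighbours (`StNv`: a violation needs four).
Case `dX G X x ≤ 1`: if `x` has no neighbour in `X`, or its neighbour is in `W`: add `x` outside `W`
(`StAdd (2)`). If its neighbour `v` is not in `W`: `StAcc` for `v`; add `x` to `W` or outside `W` accordingly.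
Case `dX G X x = 2`, the two neighbours have at most three neighbours in `X`: if both are not in `W`
add `x` to `W`, otherwise add `x` outside `W` (at most one neighbour outside `W`). -/
def StR12 : Prop :=
  ∀ (V : Type) [Finite V] [DecidableEq V] (G : SimpleGraph V) (R : Rot G) (X : Finset V) (x : V),
    x ∈ X → (dX G X x ≤ 1 ∨ (dX G X x = 2 ∧ ∀ v ∈ X, G.Adj x v → dX G X v ≤ 3)) →
    (∃ W, Good R (X.erase x) W) → ∃ W, Good R X W

/-! ### Module R3 (reducible vertices of degree four; 200-300 lines)

PROOF. From `StNv`, `StAcc`, `StAdd`. Let `x1, x2, x3, x4` be the neighbours of `b` in `X` (`x4` the exceptional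
one; if `y` is not a neighbour of `b` let `x4` be any neighbour), `zi` the other neighbour of `xi` in `X`. Let
`X' = X \ {b, x1, ..., x4}` and `W'` good for `X'`. `zi ∈ X'` (`zi ≠ xj`: no triangles), and `z1, z2, z3` have
at most three neighbours in `X`. `AFV` holds at all vertices with at most three neighbours (`StNv`), in
particular at `z1, z2, z3` and all `xi`. All steps are applications of `StAdd`.
CASE A: `z4 ∈ W'`, or `z4 ∉ W'` and `AFV R (insert x4 X') W' z4`. Add `x4` outside `W` (one neighbour `z4`), add
`b` to `W` (its only neighbour at this stage is `x4 ∉ W`), add `x1, x2, x3` outside `W` (neighbours `b ∈ W` and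
`zi`). (`AFV` only depends on the neighbours: `b` is not adjacent to the `zi`, no triangles.)
CASE B: otherwise `z4 ∉ W'` and `AFV R (insert x4 X') (insert x4 W') z4` (`StAcc`). Add `x4` to `W`. Let
`K = {i ∈ {1, 2, 3} | zi ∉ W'}`.
(B1) `|K| ≠ 1`: add `b` outside `W` (its neighbour `x4` is in `W`); for `i ∈ K` add `xi` to `W` (neighbours
`b, zi` outside `W`), for the other `i` add `xi` outside `W` (`zi ∈ W'`, one neighbour `b` outside `W`). `AFV`
at `b` by `StNv`: `b` has at most `1 + |K|` neighbours in `W` and at most `3 - |K|` neighbours outside `W`, and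
these two numbers are not both at least `2`.
(B2) `K = {j}`: add `xj` outside `W` (one neighbour `zj`; `b` is not there yet), then `b` outside `W`
(neighbours `x4 ∈ W`, `xj`), then the other two `xi` outside `W` (`zi ∈ W'`, neighbour `b`). `AFV` at `b`: only
one neighbour in `W`. -/
def StR3 : Prop :=
  ∀ (V : Type) [Finite V] [DecidableEq V] (G : SimpleGraph V) (R : Rot G) (X : Finset V) (b y : V),
    TF G → b ∈ X → dX G X b = 4 → (∀ x ∈ X, G.Adj b x → dX G X x = 2) →
    (∀ x ∈ X, G.Adj b x → x ≠ y → ∀ z ∈ X, G.Adj x z → z ≠ b → dX G X z ≤ 3) →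
    (∀ X' ⊂ X, ∃ W, Good R X' W) → ∃ W, Good R X W

/-! ### Module DIS (discharging; 150-200 lines)

PROOF. Suppose that there is no `x` as in the first alternative: all `dX v ≥ 2`, and every vertex `x` with
`dX x = 2` (a 2-vertex) has a neighbour `u` with `dX u ≥ 4`. The sum of `12 dX v - 30` over `v ∈ X` is
`24 e - 30 |X| < 0` (`e = eN G X`, the sum of the degrees is `2 e`). For adjacent `u, x ∈ X` with `dX x = 2`
let `w` be the other neighbour of `x` and let `f(u, x)` be: if `dX u ≥ 4`: `3`, `4`, `6` for `dX w ≥ 4`,
`dX w = 3`, `dX w = 2`; if `dX u = 3`: `2`; if `dX u = 2`: `0`. Every 2-vertex receives `6` in total: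
`3 + 3`, `4 + 2`, or `6 + 0`. Let every `u` give `f(u, x)` to its neighbours `x` with `dX x = 2`. New charges:
a 2-vertex has `24 - 30 + 6 - 0 = 0`; `dX u = 3`: `6` minus at most `3 * 2`; `dX u = 4`: `18` minus the sum of
at most four numbers `≤ 6`, negative only if all four neighbours are 2-vertices and at most one of the
numbers is `3` (`3 + 3 + 6 + 6 = 18`), which is the second alternative (`y` the neighbour with `3`);
`dX u ≥ 5`: `12 dX u - 30 ≥ 6 dX u`. So if the second alternative also fails, the sum is `≥ 0`,
contradiction. -/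
def StDis : Prop :=
  ∀ (V : Type) [Finite V] (G : SimpleGraph V) (X : Finset V), X.Nonempty →
    4 * eN G X < 5 * X.card →
    (∃ x ∈ X, dX G X x ≤ 1 ∨ (dX G X x = 2 ∧ ∀ v ∈ X, G.Adj x v → dX G X v ≤ 3)) ∨
    ∃ b ∈ X, ∃ y, dX G X b = 4 ∧ (∀ x ∈ X, G.Adj b x → dX G X x = 2) ∧
      ∀ x ∈ X, G.Adj b x → x ≠ y → ∀ z ∈ X, G.Adj x z → z ≠ b → dX G X z ≤ 3

/-- Module EXW (30-50 lines). PROOF. Strong induction on `|X|` from `StDis`, `StR12`, `StR3`; `X = ∅`:
`W = ∅`. -/
def StExw : Prop :=
  ∀ (V : Type) [Finite V] [DecidableEq V] (G : SimpleGraph V) (R : Rot G), TF G →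
    (∀ Y : Finset V, Y.Nonempty → 4 * eN G Y < 5 * Y.card) → ∀ X : Finset V, ∃ W, Good R X W

/-- Module F10 (assembly of part 3; 60-90 lines). PROOF. `StOg`: no loops, no triangles, so `M.graph` is
triangle-free. `StGi`, `StEb` with `g = 10` (`M.graph` is planar: the `R0` of `StAfm`): `8 e < 10 n`. `StBu`,
`StAfm` give `R0`, `StExw` a `W` which is good for `univ`; `FG M.ι M.t W` is acyclic (every cycle of it is a
cycle of the graph induced on the complement of `W`: `M.graph.Adj` holds); `AF M W` by `StAfm`; `StQf`. -/
def StF10 : Prop :=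
  ∀ (V D : Type) [Finite V] [Nonempty V] [Finite D] (M : PMap V D), Conn M → HC M 10 →
    (∃ d, OddD M d) →
    (∀ d, Function.minimalPeriod M.φ d = 2 ∨ Function.minimalPeriod M.φ d = 10 + 1) →
    ∃ W : Set V, (∀ d, M.t d ∈ W → M.t (M.ι d) ∉ W) ∧ Q M W

/-! ### Module CYC (from cycles to `HC`; 150-200 lines)

PROOF. Let `p` be constant on the faces and separate two odd faces; show `2 L ≤ cut p` by strong induction
on `cut p`. Let `T` be the subgraph of `G` of the edges of the darts `d` with `p d.symm ≠ p d`. `cut p ≠ 0`
(`StCn0`), so `T` has an edge. At every vertex the number of the darts with `p d.symm ≠ p d` is even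
(see FR). So `T` is not acyclic (a finite acyclic graph with an edge has a vertex of degree one); let `c` be
a cycle of `T`, considered as a cycle of `G`. Let `x d = 1` if `d.edge ∈ c.edges`, else `0`: the sum of `x` at
every vertex is `0` (two or no edges of a cycle at a vertex), so as in OGM there is `y` with
`y (R.φ d) = y d`, `y d.symm = y d + x d`; `cut y = 2 * c.length`. If `y` separates two odd faces the
hypothesis gives `L ≤ c.length`, and the darts with `x d = 1` are among those with `p d.symm ≠ p d`, so
`2 L ≤ cut p`. Otherwise `p + y` separates (`y` is constant on the odd darts), and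
`cut (p + y) = cut p - 2 * c.length`. -/
def StCyc : Prop :=
  ∀ (V : Type) [Finite V] (G : SimpleGraph V) (R : Rot G) (L : ℕ), G.Connected →
    (∀ (v : V) (c : G.Walk v v), c.IsCycle →
      (∃ y : G.Dart → ZMod 2, (∀ d, y (R.φ d) = y d) ∧
        (∀ d : G.Dart, y d.symm ≠ y d ↔ d.edge ∈ c.edges) ∧
        ∃ a b, OddD R.map a ∧ OddD R.map b ∧ y a ≠ y b) → L ≤ c.length) →
    HC R.map L

end Pool.Agent.Helper77.SO
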